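import Pool.Agent.N80.LS.Comb
import Pool.Agent.N615.LS.Star3
import Pool.Agent.N50.LS.PI
import Pool.Agent.N966.LS.TwoBlock
import Pool.Agent.N521.LS.SplitOK
import Pool.Agent.N521.LS.Main3
import Pool.Agent.N966.LS.RealOKb
import Pool.Agent.N279.LS.Curve
import Pool.Agent.N835.LS.Main
import Pool.Agent.N765.LS.Func
import Pool.Agent.N608.LS.L12b
import Pool.Agent.N608.LS.L14
import Pool.Agent.N558.LS.LS5
import Pool.Agent.N868.LS.D3
import Pool.Agent.N868.LS.Ebound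

set_option autoImplicit false

/-! Assembly of the case `k = 3`. -/

namespace Pool.Agent.N356.SP

open Finset Pool.Agent.H384R3.SPk

theorem star3 {m : ℕ} {C : Finset (ZMod m)} {θ : ZMod m → ZMod m → ℝ} :
    Pool.Agent.N966.LS.Star3 C θ := by
  intro g f h hg0 hf0 hg hf G hG
  exact Pool.Agent.N615.LS.star3' (fun I I0 Iz => Pool.Agent.N80.LS.comb h I I0 Iz) h hg0 hf0 hg hf
    hG

theorem A1 {m : ℕ} {C : Finset (ZMod m)} : Pool.Agent.N966.LS.A1Eq C := by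
  intro g f hneg hne hg0 hf0 hg hf i
  exact Pool.Agent.N615.LS.A1_eq hneg hne hg0 hf0 hg hf i

theorem splitOK3 : SplitOK 3 B3 (157 / 200) := by
  refine Pool.Agent.N521.LS.splitOK3 ?_ ?_ ?_ ?_
  · intro m C θ g f h hg0 hf0 hg hf hG hF t ht0 ht1
    exact Pool.Agent.N966.LS.two_block3
      (fun {y A2 A3 A4 A5} h0 h1 h2 h4 h h4' h5 => Pool.Agent.N50.LS.PI h0 h1 h2 h4 h h4' h5)
      star3 A1 h hg0 hf0 hg hf hG hF ht0 ht1
  · intro Γ _ C hneg h8 h2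
    exact Pool.Agent.N558.LS.good_th hneg h8 h2
  · intro Γ _ _ c h8
    exact Pool.Agent.N615.LS.good_small h8
  · intro k hk A A₀ A' hpos h0 h1 t B ht hB H
    exact Pool.Agent.N608.LS.S_comb hk hpos h0 h1 ht hB H

theorem hmain : Pool.Agent.N521.LS.HMain := by
  intro k n hk hn b hb B t₀ ht₀ hS hR A hA hAp hM
  exact Pool.Agent.N356.SP.LS15.main_gen_of
    (fun {_} hk {_ _} h hp => Pool.Agent.N765.LS.S_sub hk h hp)
    (fun {_} hk {_} hA hp => Pool.Agent.N765.LS.one_le_S hk hA hp) hk hn hb ht₀ hS hR A hA hAp hM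

theorem hreal3 : Pool.Agent.N521.LS.HReal := by
  intro n hn b hb
  exact Pool.Agent.N966.LS.realOK3_curve
    (fun h0 h1 h2 h3 h4 h5 => Pool.Agent.N279.LS.curve3_of Pool.Agent.N868.LS.D3
      Pool.Agent.N868.LS.Ebound h0 h1 h2 h3 h4 h5) hn hb

theorem hpow : Pool.Agent.N521.LS.HPow := by
  intro k hk A hA hp
  exact Pool.Agent.N765.LS.S_pow hk hA hp

theorem hone : Pool.Agent.N521.LS.HOne := by
  intro k hk A hA hp
  exact Pool.Agent.N765.LS.one_le_S hk hA hp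

theorem main3 : ∃ K : ℝ, 1 ≤ K ∧ ∀ n : ℕ, 3 ≤ n → ∀ β : ℝ, 50 ≤ (n : ℝ) ^ β →
    ∀ A : Finset ℤ, A.Nonempty →
      (A.card : ℝ) ^ (3 + β) ≤ K ^ (3 + β) *
        (((sumset 3 A).card : ℝ) * ((prodset fun _ : Fin n => A).card : ℝ) ^ β) :=
  Pool.Agent.N521.LS.main3 hmain splitOK3 hreal3 Pool.Agent.N608.LS.exists_mono hpow hone

theorem max3 : ∃ K : ℝ, 1 ≤ K ∧ ∀ N : ℕ, 3 ≤ N → ∀ A : Finset ℤ, A.Nonempty →
    ((A.card : ℝ) / K) ^ ((3 * Real.log N + Real.log 50) / (Real.log N + Real.log 50)) ≤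
      max ((sumset N A).card : ℝ) ((prodset fun _ : Fin N => A).card : ℝ) :=
  Pool.Agent.N521.LS.max3 hmain splitOK3 hreal3 Pool.Agent.N608.LS.exists_mono hpow hone

end Pool.Agent.N356.SP
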