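import Pool.Agent.N356.SP.All3
import Pool.Agent.N169.LS.KS1
import Pool.Agent.N169.LS.KS3
import Pool.Agent.N368.LS.LU4
import Pool.Agent.N400.LS.KS5
import Pool.Agent.N545.LS.KS6Main
import Pool.Agent.N891.LS.KS7
import Pool.Agent.N97.LS.KS8
import Pool.Agent.N263.LS.KS9
import Pool.Agent.N849.LS.KS10
import Pool.Agent.N738.LS.Pw
import Pool.Agent.N286.LS.Star4
import Pool.Agent.N297.LS.TwoBlock4
import Pool.Agent.N521.LS.SplitOK4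
import Pool.Agent.N521.LS.Main4
import Pool.Agent.N835.LS.RealOK4
import Pool.Agent.N868.LS.Curve4
import Pool.Agent.N232.LS.Good4

set_option autoImplicit false

/-! Assembly of the case `k = 4`. -/

namespace Pool.Agent.N356.SP

open Finset Pool.Agent.H384R3.SPk

section Abs

variable {Γ R : Type*} [AddCommGroup Γ] [CommRing R] [Algebra ℝ R] {K : Cone Γ R}
  {L : R →ₗ[ℝ] ℝ} {C : Finset Γ} {θ : Γ → Γ → ℝ} {φ : Γ → R}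

theorem L_U4 (hL : IsFun K L) (h : GoodC C θ) (hφ : ∀ c, φ c ∈ K.P c) :
    3 / 2 * L (vA C φ ^ 2) ≤ L (UA C φ ^ 4) :=
  Pool.Agent.N368.LS.L_U4' (fun hneg hne J J0 => Pool.Agent.N169.LS.comb2s hneg hne J J0) hL h hφ

theorem L_f6 (hL : IsFun K L) (h : GoodC C θ) (hφ : ∀ c, φ c ∈ K.P c) :
    5 / 2 * L (muA C φ ^ 3) + 8 / 3 * L (muA C φ * wA C θ φ) ≤ L (fA C φ ^ 6) :=
  Pool.Agent.N400.LS.L_f6_of hL hφ (fun I I0 Iz => Pool.Agent.N80.LS.comb h I I0 Iz)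

theorem L_f8 (hL : IsFun K L) (h : GoodC C θ) (hφ : ∀ c, φ c ∈ K.P c) :
    35 / 8 * L (muA C φ ^ 4) + 20 / 3 * L (muA C φ ^ 2 * wA C θ φ) +
      32 / 75 * L (wA C θ φ ^ 2) ≤ L (fA C φ ^ 8) :=
  Pool.Agent.N891.LS.L_f8_of hL (Pool.Agent.N169.LS.muA_mem hφ) (Pool.Agent.N169.LS.vA_mem hφ)
    (Pool.Agent.N169.LS.wA_mem hφ h.nn) (Pool.Agent.N169.LS.fA_sq h.neg)
    (fun _ hL => Pool.Agent.N169.LS.L_U hL hφ) (fun _ hL => Pool.Agent.N169.LS.L_U2 hL h.neg hφ)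
    (fun _ hL => Pool.Agent.N169.LS.L_U3 hL hφ) (fun _ hL => L_U4 hL h hφ)
    (fun _ hL => L_f6 hL h hφ) (fun _ hL => Pool.Agent.N545.LS.L_v hL h hφ)

end Abs

theorem star8 {m : ℕ} {C : Finset (ZMod m)} {θ : ZMod m → ZMod m → ℝ} {f : ℤ →₀ ℝ}
    (h : GoodC C θ) (hf0 : ∀ n, 0 ≤ f n) (hf : ∀ n ∈ f.support, ((n : ℤ) : ZMod m) ∈ C) :
    35 / 8 * (∫ x in (0:ℝ)..1, muf C f x ^ 4) +
      20 / 3 * (∫ x in (0:ℝ)..1, muf C f x ^ 2 * wf C θ f x) +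
      32 / 75 * (∫ x in (0:ℝ)..1, wf C θ f x ^ 2) ≤ Mc 4 f :=
  Pool.Agent.N263.LS.star8_of (fun hL h hφ => L_f8 hL h hφ) Pool.Agent.N97.LS.exists_cone h hf0 hf

theorem star4 {m : ℕ} {C : Finset (ZMod m)} {θ : ZMod m → ZMod m → ℝ} {g f : ℤ →₀ ℝ}
    (h : GoodC C θ) (hg0 : ∀ n, 0 ≤ g n) (hf0 : ∀ n, 0 ≤ f n)
    (hg : ∀ n ∈ g.support, ((n : ℤ) : ZMod m) = 0)
    (hf : ∀ n ∈ f.support, ((n : ℤ) : ZMod m) ∈ C) {G y : ℝ} (hG0 : 0 < G) (hy : 0 ≤ y)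
    (hG : Mc 4 g ≤ G) (hF : Mc 4 f ≤ G * y ^ 4) :
    0 ≤ AJ 6 2 g f ∧ 7 / c4 * AJ 6 2 g f ≤ G * y ∧
      AJ 5 3 g f ^ 2 ≤ 217 / 250 * G * y ^ 2 * (G * y - 7 / c4 * AJ 6 2 g f) :=
  Pool.Agent.N286.LS.star4 (Pool.Agent.N263.LS.muf_cont) (Pool.Agent.N263.LS.wf_cont)
    (fun h hf0 hf => star8 h hf0 hf)
    (fun hneg hg0 hf0 hg hf i => Pool.Agent.N849.LS.AJ2_eq hneg hg0 hf0 hg hf i)
    (fun h hf0 hf => Pool.Agent.N849.LS.AJ3_eq h hf0 hf)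
    (fun hμ hw hν h => Pool.Agent.N738.LS.pw4 hμ hw hν h) h hg0 hf0 hg hf hG0 hy hG hF

theorem splitOK4 : SplitOK 4 B4 (69 / 200) := by
  refine Pool.Agent.N521.LS.splitOK4 ?_ ?_ ?_ ?_
  · intro m C θ g f h hg0 hf0 hg hf hG hF t ht0 ht1
    exact Pool.Agent.N297.LS.two_block4
      (fun {_ _ _ _ _} h hg0 hf0 hg hf {_ _} hG0 hy hG hF => star4 h hg0 hf0 hg hf hG0 hy hG hF)
      h hg0 hf0 hg hf hG hF ht0 ht1
  · intro Γ _ C hneg h8 h2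
    exact Pool.Agent.N558.LS.good_th hneg h8 h2
  · intro Γ _ _ c h8
    exact Pool.Agent.N615.LS.good_small h8
  · intro k hk A A₀ A' hpos h0 h1 t B ht hB H
    exact Pool.Agent.N608.LS.S_comb hk hpos h0 h1 ht hB H

theorem hreal4 : Pool.Agent.N521.LS.HReal4 := by
  intro n hn b hb
  exact Pool.Agent.N835.LS.realOK4_of (fun {_} hn {_} hb => Pool.Agent.N232.LS.good4 hn hb)
    (fun h0 h1 h2 h3 h4 h5 => Pool.Agent.N868.LS.Four.curve4 h0 h1 h2 h3 h4 h5) hn hb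

theorem main4 : ∃ K : ℝ, 1 ≤ K ∧ ∀ n : ℕ, 4 ≤ n → ∀ β : ℝ, 2744 / 5 ≤ (n : ℝ) ^ β →
    ∀ A : Finset ℤ, A.Nonempty →
      (A.card : ℝ) ^ (4 + β) ≤ K ^ (4 + β) *
        (((sumset 4 A).card : ℝ) * ((prodset fun _ : Fin n => A).card : ℝ) ^ β) :=
  Pool.Agent.N521.LS.main4 hmain splitOK4 hreal4 Pool.Agent.N608.LS.exists_mono hpow hone

theorem max4 : ∃ K : ℝ, 1 ≤ K ∧ ∀ N : ℕ, 4 ≤ N → ∀ A : Finset ℤ, A.Nonempty →
    ((A.card : ℝ) / K) ^ ((4 * Real.log N + Real.log (2744 / 5)) /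
      (Real.log N + Real.log (2744 / 5))) ≤
      max ((sumset N A).card : ℝ) ((prodset fun _ : Fin N => A).card : ℝ) :=
  Pool.Agent.N521.LS.max4 hmain splitOK4 hreal4 Pool.Agent.N608.LS.exists_mono hpow hone

end Pool.Agent.N356.SP
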