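import Pool.Agent.N717.LK.MQ
import Pool.Agent.N49.LK.GK3
import Pool.Agent.N227.LK.Numer
import Pool.Agent.N106.LK.Num
import Pool.Agent.N123.LK.GK5a
import Pool.Agent.N199.LK.WordIneq
import Pool.Agent.N391.LK.Words
import Pool.Agent.N698.LK.Symm
import Pool.Agent.N707.LK.RecL
import Pool.Agent.N163.LK.PkRec
import Pool.Agent.N67.LK.LpK
import Pool.Agent.N286.LK.PKInt
import Pool.Agent.N957.LK.PwK
import Pool.Agent.N415.LK.Low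
import Pool.Agent.N394.LK.GK11
import Pool.Agent.N952.LK.GK12
import Pool.Agent.N263.LK.TwoBlockK
import Pool.Agent.N603.LK.SplitK
import Pool.Agent.N690.LK.GK16a
import Pool.Agent.N768.LK.MainGen
import Pool.Agent.N614.LK.GoodK
import Pool.Agent.N286.LK.Curve
import Pool.Agent.N50.LK.RealOKK
import Pool.Agent.N50.LK.MainK
import Pool.Agent.N572.LK.Asym
import Pool.Agent.N667.LK.E2
import Pool.Agent.N765.LS.Func

set_option autoImplicit false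

/-! The class inequality in `L^{2k}` for every `k`, and the theorem for `k ≥ 6` from the last two
real inequalities. -/

namespace Pool.Agent.N356.SP

open Finset Pool.Agent.H384R3.SPk

theorem numer_m {Γ : Type*} [AddCommGroup Γ] {C : Finset Γ} (hneg : ∀ s ∈ C, -s ∈ C)
    (hne : ∀ s ∈ C, s ≠ -s) (m : Γ → ℕ)
    {K : ℕ} (hK : 2 ≤ K) (hm : ∑ v ∈ C, m v = 2 * K)
    (h3 : ∀ c ∈ C, m c + m (-c) = 2 * K → m c = m (-c)) :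
    1 / 6 * (mP C (fun v => (m v : ℝ)) + mD C (fun v => (m v : ℝ))) * mP C (fun v => (m v : ℝ)) ≤
      4 * ((K:ℝ) - 1) * K ^ 3 - 2 * ((K:ℝ) - 1) * (2 * K - 1) * mS C (fun v => (m v : ℝ)) +
        mS4 C (fun v => (m v : ℝ)) :=
  Pool.Agent.N106.LK.numer_m_of
    (fun s N d h0 h1 h2 _ hM hM2 hM4 h3 => numer s N d h0 h1 h2 hM hM2 hM4 h3)
    hneg hne m hK hm h3

theorem word_ineq {Γ : Type*} [AddCommGroup Γ] {C : Finset Γ} {θ : Γ → Γ → ℝ} (h : GoodC C θ)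
    {K : ℕ} (hK : 2 ≤ K) (ho : OrdC K C) (x : Fin (2 * K) → Γ) (hx : ∀ i, x i ∈ C)
    (hz : ∑ i, x i = 0) :
    32 / 81 * wV4 θ x ≤
      4 * ((K:ℝ) - 1) * K ^ 3 - 2 * ((K:ℝ) - 1) * (2 * K - 1) * wS x + wS4 x :=
  Pool.Agent.N199.LK.word_ineq
    (fun hneg hne m _ hK hm h3 => numer_m hneg hne m hK hm h3) h hK ho x hx hz

section Abs

variable {Γ R : Type*} [AddCommGroup Γ] [CommRing R] [Algebra ℝ R] {K : Cone Γ R}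
  {L : R →ₗ[ℝ] ℝ} {C : Finset Γ} {θ : Γ → Γ → ℝ} {φ : Γ → R}

theorem rec_L (hL : IsFun K L) (h : GoodC C θ) (hφ : ∀ c, φ c ∈ K.P c) {k : ℕ} (hk : 1 ≤ k)
    (ho : OrdC (k + 1) C) :
    0 ≤ L (fA C φ ^ (2 * k + 2)) -
      (2 * (k:ℝ) + 1) ^ 2 / ((k:ℝ) + 1) ^ 2 * L (muA C φ * fA C φ ^ (2 * k)) +
      (2 * (k:ℝ) + 1) * (2 * k - 1) / ((k:ℝ) + 1) ^ 2 * L (muA C φ ^ 2 * fA C φ ^ (2 * k - 2)) -
      32 / 81 * ((2 * (k:ℝ) + 1) * (2 * k - 1) / ((k:ℝ) + 1) ^ 2) *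
        L (wA C θ φ * fA C φ ^ (2 * k - 2)) :=
  Pool.Agent.N707.LK.rec_L_of Pool.Agent.N391.LK.words_pow Pool.Agent.N391.LK.words_mu
    Pool.Agent.N391.LK.words_mu2 Pool.Agent.N391.LK.words_w
    (Pool.Agent.N391.LK.word_nonneg hL hφ) Pool.Agent.N698.LK.symm2 Pool.Agent.N698.LK.symm4
    (word_ineq h) h hk ho

/-- the class inequality: `(f^{2k})_0 ≥ λ_k p_k(μ, 16 w / 81)` -/
theorem L_pK (hL : IsFun K L) (h : GoodC C θ) (hφ : ∀ c, φ c ∈ K.P c) {k : ℕ} (ho : OrdC k C) :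
    lam k * L (pK k (muA C φ) ((16 / 81 : ℝ) • wA C θ φ)) ≤ L (fA C φ ^ (2 * k)) :=
  Pool.Agent.N67.LK.L_pK_of (fun _ hk μ t => pK_rec hk μ t)
    (fun _ hL _ hk ho => rec_L hL h hφ hk ho) hL h hφ ho

end Abs

section Classes

variable {m : ℕ} {C : Finset (ZMod m)} {θ : ZMod m → ZMod m → ℝ} {g f : ℤ →₀ ℝ}

theorem pK_int (h : GoodC C θ) {k : ℕ} (ho : OrdC k C) (hf0 : ∀ n, 0 ≤ f n)
    (hf : ∀ n ∈ f.support, ((n : ℤ) : ZMod m) ∈ C) :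
    lam k * (∫ x in (0:ℝ)..1, pK k (muf C f x) (16 / 81 * wf C θ f x)) ≤ Mc k f :=
  Pool.Agent.N286.LK.pK_int_of (fun hL h hφ _ ho => L_pK hL h hφ ho) h ho hf0 hf

theorem pwK {k : ℕ} (hk : 6 ≤ k) {μ w G t q : ℝ} (hμ : 0 ≤ μ) (hw : 0 ≤ w) (hG : 0 ≤ G)
    (ht : 0 ≤ t) (hq : 0 ≤ q) (h : q ^ k = lam k * pK k μ (16 / 81 * w)) :
    ((2 * k).choose 2 : ℝ) * t ^ 2 * (G ^ (2 * k - 2) * μ) +
        ((2 * k).choose 3 : ℝ) * t ^ 3 * (G ^ (2 * k - 3) * √(μ * w)) ≤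
      k * cK k * t ^ 2 * (G ^ (2 * k - 2) * q) +
        9 / 100 * (k * cK k * t ^ 2) ^ 2 * (G ^ (2 * k - 4) * q ^ 2) :=
  Pool.Agent.N957.LK.pwK (fun hk _ hψ => Pool.Agent.N415.LK.pK_six hk hψ)
    (fun hk _ hψ => Pool.Agent.N415.LK.pK_eight hk hψ) hk hμ hw hG ht hq h

theorem T23 {k : ℕ} (hk : 6 ≤ k) (h : GoodC C θ) (ho : OrdC k C) (hg0 : ∀ n, 0 ≤ g n)
    (hf0 : ∀ n, 0 ≤ f n) (hg : ∀ n ∈ g.support, ((n : ℤ) : ZMod m) = 0)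
    (hf : ∀ n ∈ f.support, ((n : ℤ) : ZMod m) ∈ C) (hG : Mc k g ≤ ((2 * k).choose k : ℝ))
    (hF : Mc k f ≤ ((2 * k).choose k : ℝ)) {t : ℝ} (ht : 0 ≤ t) :
    ((2 * k).choose 2 : ℝ) * t ^ 2 * AJ (2 * k - 2) 2 g f +
        ((2 * k).choose 3 : ℝ) * t ^ 3 * AJ (2 * k - 3) 3 g f ≤
      ((2 * k).choose k : ℝ) * (k * cK k * t ^ 2 + 9 / 100 * (k * cK k * t ^ 2) ^ 2) :=
  Pool.Agent.N394.LK.T23
    (fun hk _ _ _ _ _ hμ hw hG ht hq h => pwK hk hμ hw hG ht hq h)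
    (fun h _ ho hf0 hf => pK_int h ho hf0 hf) hk h ho hg0 hf0 hg hf hG hF ht

theorem Tj_le {k : ℕ} (hk : 6 ≤ k) (h : GoodC C θ) (ho : OrdC k C) (hg0 : ∀ n, 0 ≤ g n)
    (hf0 : ∀ n, 0 ≤ f n) (hg : ∀ n ∈ g.support, ((n : ℤ) : ZMod m) = 0)
    (hf : ∀ n ∈ f.support, ((n : ℤ) : ZMod m) ∈ C) (hG : Mc k g ≤ ((2 * k).choose k : ℝ))
    (hF : Mc k f ≤ ((2 * k).choose k : ℝ)) {t : ℝ} (ht : 0 ≤ t) {j : ℕ} (hj : 4 ≤ j)
    (hjk : j ≤ 2 * k) :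
    ((2 * k).choose j : ℝ) * t ^ j * AJ (2 * k - j) j g f ≤
      ((2 * k).choose k : ℝ) * TK k j (k * cK k * t ^ 2) :=
  Pool.Agent.N952.LK.Tj_le (fun h _ ho hf0 hf => pK_int h ho hf0 hf) hk h ho hg0 hf0 hg hf hG hF
    ht hj hjk

end Classes

/-- the two real inequalities -/
def HSum : Prop := ∀ {k : ℕ}, 6 ≤ k → ∀ {X : ℝ}, 0 ≤ X → X ≤ 17 / 10 →
  1 + X + 9 / 100 * X ^ 2 + ∑ j ∈ Icc 4 (2 * k), TK k j X ≤ Nb (1 / k) X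

def HE1 : Prop := ∀ {η s y : ℝ} (_ : 0 < η) (_ : η ≤ 1 / 6) (_ : 0 ≤ s) (_ : 2 * s + η ≤ 1)
  (_ : 0 ≤ y) (_ : y ≤ 11 / 50),
  Real.exp (y / 2 - 3 / 20 * y ^ 3) * (1 + (1 - η) * y) ^ ((1 / 2 + s) / (1 - η)) ≤
    (1 - η * y) ^ (-(s / η)) + y * (1 + y / 2)

theorem two_blockK_of (H : HSum) {m : ℕ} {C : Finset (ZMod m)} {θ : ZMod m → ZMod m → ℝ}
    {g f : ℤ →₀ ℝ} {k : ℕ} (hk : 6 ≤ k) (h : GoodC C θ) (ho : OrdC k C) (hg0 : ∀ n, 0 ≤ g n)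
    (hf0 : ∀ n, 0 ≤ f n) (hg : ∀ n ∈ g.support, ((n : ℤ) : ZMod m) = 0)
    (hf : ∀ n ∈ f.support, ((n : ℤ) : ZMod m) ∈ C) (hG : Mc k g ≤ ((2 * k).choose k : ℝ))
    (hF : Mc k f ≤ ((2 * k).choose k : ℝ)) {t : ℝ} (ht : 0 ≤ t)
    (ht1 : k * cK k * t ^ 2 ≤ 17 / 10) :
    Mc k (g + t • f) ≤ ((2 * k).choose k : ℝ) * Nb (1 / k) (k * cK k * t ^ 2) :=
  Pool.Agent.N263.LK.two_blockK (by intro; intros; apply T23 <;> assumption)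
    (by intro; intros; apply Tj_le <;> assumption) (by intro; intros; apply H <;> assumption)
    hk h ho hg0 hf0 hg hf hG hF ht ht1

theorem splitK_of (H : HSum) {k : ℕ} (hk : 6 ≤ k) : SplitK k (BK k) (tK k) :=
  Pool.Agent.N603.LK.splitK
    (fun hk h ho hg0 hf0 hg hf hG hF _ ht ht1 => two_blockK_of H hk h ho hg0 hf0 hg hf hG hF ht ht1)
    hk

theorem curveK_of (H1 : HE1) {k n : ℕ} (hk : 6 ≤ k) (hn : k ≤ n) {b : ℝ} (hb0 : 0 < b)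
    (hb1 : 1 ≤ ((n:ℝ) - 1) * b)
    (hb2 : (1 - 1 / (n : ℝ)) * b ≤ 1) {y : ℝ} (hy0 : 0 ≤ y) (hy1 : y ≤ 13 / (10 * k)) :
    (1 + (1 - 1 / (n:ℝ)) * y) ^ ((1 + b) / 2) *
        Nb (1 / k) (k * y * (1 + y / 2) ^ 2) ^ ((1:ℝ) / (2 * k)) ≤
      (1 - y / n) ^ (-((((n:ℝ) - 1) * b - 1) / 2)) + y * (1 + y / 2) :=
  Pool.Agent.N286.LK.curveK_of H1 Pool.Agent.N667.LK.E2 hk hn hb0 hb1 hb2 hy0 hy1

theorem realOKK_of (H1 : HE1) {k n : ℕ} (hk : 6 ≤ k) (hn : k ≤ n) {b : ℝ}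
    (hb : (n : ℝ) ^ b = cK k) : RealOK n b (BK k) (tK k) :=
  Pool.Agent.N50.LK.realOKK (by intro; intros; apply Pool.Agent.N614.LK.goodK <;> assumption)
    (by intro; intros; apply curveK_of H1 <;> assumption) hk hn hb

theorem hMainK : Pool.Agent.N50.LK.HMainK := by
  intro; intros; apply Pool.Agent.N768.LK.main_genK <;> assumption

theorem mainK_of (H : HSum) (H1 : HE1) {k : ℕ} (hk : 6 ≤ k) : ∃ K : ℝ, 1 ≤ K ∧ ∀ n : ℕ, k ≤ n →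
    ∀ β : ℝ, (2 * (2 * (k : ℝ) - 1)) ^ k / ((2 * k).choose k : ℝ) ≤ (n : ℝ) ^ β →
    ∀ A : Finset ℤ, A.Nonempty →
      (A.card : ℝ) ^ ((k : ℝ) + β) ≤ K ^ ((k : ℝ) + β) *
        (((sumset k A).card : ℝ) * ((prodset fun _ : Fin n => A).card : ℝ) ^ β) :=
  Pool.Agent.N50.LK.mainK hMainK (by intro; intros; apply splitK_of H <;> assumption)
    (by intro; intros; apply realOKK_of H1 <;> assumption)
    (fun k => Pool.Agent.N690.LK.exists_monoK k)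
    (fun hk _ hA hpos => Pool.Agent.N765.LS.S_pow hk hA hpos)
    (fun hk _ hA hpos => Pool.Agent.N765.LS.one_le_S hk hA hpos) hk

theorem maxK_of (H : HSum) (H1 : HE1) {k : ℕ} (hk : 6 ≤ k) : ∃ K : ℝ, 1 ≤ K ∧ ∀ N : ℕ, k ≤ N →
    ∀ A : Finset ℤ, A.Nonempty → ((A.card : ℝ) / K) ^
      ((k * Real.log N + Real.log ((2 * (2 * (k : ℝ) - 1)) ^ k / ((2 * k).choose k : ℝ))) /
        (Real.log N + Real.log ((2 * (2 * (k : ℝ) - 1)) ^ k / ((2 * k).choose k : ℝ)))) ≤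
      max ((sumset N A).card : ℝ) ((prodset fun _ : Fin N => A).card : ℝ) :=
  Pool.Agent.N50.LK.maxK hMainK (by intro; intros; apply splitK_of H <;> assumption)
    (by intro; intros; apply realOKK_of H1 <;> assumption)
    (fun k => Pool.Agent.N690.LK.exists_monoK k)
    (fun hk _ hA hpos => Pool.Agent.N765.LS.S_pow hk hA hpos)
    (fun hk _ hA hpos => Pool.Agent.N765.LS.one_le_S hk hA hpos) hk

end Pool.Agent.N356.SP
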