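import Pool.Agent.H384R3.SPk.Final

set_option autoImplicit false

/-! Definitions for the sharp class inequality in `L^6` (and `L^8`) and its consequences. -/

namespace Pool.Agent.N356.SP

open Finset Pool.Agent.H384R3.SPk

/-- the character `x ↦ exp (2 π i n x)` -/
noncomputable abbrev e (n : ℤ) (x : ℝ) : ℂ := Pool.Agent.H384R3.SPk.C.e n x

/-- cosine polynomial with coefficients `h` -/
noncomputable def cosp (h : ℤ →₀ ℝ) (x : ℝ) : ℝ :=
  h.sum fun n a => a * (2 * Real.cos (2 * Real.pi * n * x))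

/-- its `2k`-th moment -/
noncomputable def Mc (k : ℕ) (h : ℤ →₀ ℝ) : ℝ := ∫ x in (0:ℝ)..1, cosp h x ^ (2 * k)

/-- mixed moments -/
noncomputable def AJ (i j : ℕ) (g f : ℤ →₀ ℝ) : ℝ :=
  ∫ x in (0:ℝ)..1, cosp g x ^ i * cosp f x ^ j

/-- sums of coefficients of normalised cosine polynomials with frequencies in `A` -/
def Sset (k : ℕ) (A : Finset ℤ) : Set ℝ :=
  {s | ∃ h : ℤ →₀ ℝ, (∀ n, 0 ≤ h n) ∧ h.support ⊆ A ∧ Mc k h ≤ ((2 * k).choose k : ℝ) ∧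
    ∑ n ∈ A, h n = s}

/-- the functional of the induction -/
noncomputable def S (k : ℕ) (A : Finset ℤ) : ℝ := sSup (Sset k A)

/-- the part of the symmetrised polynomial `f` with frequencies in the class `c` modulo `m` -/
noncomputable def cl (m : ℕ) (f : ℤ →₀ ℝ) (c : ZMod m) (x : ℝ) : ℂ :=
  f.sum fun n a => (a : ℂ) * ((if ((n : ℤ) : ZMod m) = c then e n x else 0) +
    (if ((-n : ℤ) : ZMod m) = c then e (-n) x else 0))

/-- a symmetric set of classes with weights on pairs of classes -/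
structure GoodC {Γ : Type*} [AddCommGroup Γ] (C : Finset Γ) (θ : Γ → Γ → ℝ) : Prop where
  neg : ∀ s ∈ C, -s ∈ C
  ne : ∀ s ∈ C, s ≠ -s
  nn : ∀ s t, 0 ≤ θ s t
  symm : ∀ s t, θ t s = θ s t
  even : ∀ s t, θ (-s) (-t) = θ s t
  self : ∀ s, θ s s = 0
  anti : ∀ s, θ s (-s) = 0
  tri : ∀ r ∈ C, ∀ s ∈ C, ∀ t ∈ C, r + s + t = 0 → θ r s + θ s t + θ t r = 3
  sq : ∀ s ∈ C, ∀ t ∈ C, t ≠ s → t ≠ -s → θ s t ^ 2 + θ s (-t) ^ 2 ≤ 45 / 16
  quad : ∀ s ∈ C, ∀ t ∈ C, ∀ u ∈ C, ∀ v ∈ C, s + t + u + v = 0 →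
    s ≠ -t → s ≠ -u → s ≠ -v → t ≠ -u → t ≠ -v → u ≠ -v → θ s t * θ u v ≤ 27 / 16
  two : ∀ s ∈ C, ∀ t ∈ C, s + t = -(s + t) → s + t = 0

/-- the weights -/
noncomputable def th {Γ : Type*} [AddCommGroup Γ] (s t : Γ) : ℝ := by
  classical exact
    if t = s ∨ t = -s then 0
    else if t = -(s + s) ∨ s = -(t + t) then 3 / 2
    else if t = s + s ∨ s = t + t then 3 / 4
    else if t = -(s + s + s) ∨ s = -(t + t + t) ∨ t + t = -(s + s + s) ∨ s + s = -(t + t + t) then 9 / 8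
    else 1

/-- a triple with an antipodal pair -/
def ap {Γ : Type*} [AddCommGroup Γ] (T : Γ × Γ × Γ) : Prop :=
  T.1 = -T.2.1 ∨ T.2.1 = -T.2.2 ∨ T.1 = -T.2.2

/-- the multiset of a triple -/
def ms {Γ : Type*} (T : Γ × Γ × Γ) : Multiset Γ := {T.1, T.2.1, T.2.2}

open Classical in
/-- triples of classes with an antipodal pair -/
noncomputable def TA {Γ : Type*} [AddCommGroup Γ] (C : Finset Γ) : Finset (Γ × Γ × Γ) :=
  (C ×ˢ C ×ˢ C).filter ap

open Classical in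
/-- triples of classes without antipodal pair -/
noncomputable def TY {Γ : Type*} [AddCommGroup Γ] (C : Finset Γ) : Finset (Γ × Γ × Γ) :=
  (C ×ˢ C ×ˢ C).filter fun T => ¬ ap T

open Classical in
/-- zero sum quadruples of classes whose last three entries have no antipodal pair -/
noncomputable def TQ {Γ : Type*} [AddCommGroup Γ] (C : Finset Γ) : Finset (Γ × Γ × Γ × Γ) :=
  (C ×ˢ TY C).filter fun Q => Q.1 + Q.2.1 + Q.2.2.1 + Q.2.2.2 = 0

/-- the weight of a quadruple without antipodal pair -/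
noncomputable def w2 {Γ : Type*} (Q : Γ × Γ × Γ × Γ) : ℝ := by
  classical exact if Q.1 ≠ Q.2.1 ∧ Q.2.2.1 ≠ Q.2.2.2 then 27 / 16 else 0

/-- the functional of a family of classes of `f`: `∫ ∏ f_c` -/
noncomputable def Ic (m : ℕ) (f : ℤ →₀ ℝ) (U : Multiset (ZMod m)) : ℝ :=
  (∫ x in (0:ℝ)..1, (U.map fun c => cl m f c x).prod).re

/-- sets of integers which lie in one class of valuation and unit part for the primes below 11 -/
def Mono (A : Finset ℤ) : Prop :=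
  ∀ q : ℕ, q.Prime → q < 11 → ∀ a ∈ A, ∀ b ∈ A,
    padicValInt q a ≡ padicValInt q b [MOD 4] ∧
    a / (q : ℤ) ^ padicValInt q a ≡ b / (q : ℤ) ^ padicValInt q b [ZMOD (q : ℤ) ^ 4]

/-- splittings of a set by the valuation at a prime, as in `TaskD` -/
def Split (p j : ℕ) (A A₀ A' : Finset ℤ) : Prop :=
  p.Prime ∧ (∀ a ∈ A, 0 < a) ∧ A₀.Nonempty ∧ A'.Nonempty ∧ Disjoint A₀ A' ∧ A₀ ∪ A' = A ∧
    (∀ a ∈ A₀, padicValInt p a = j) ∧ (∀ a ∈ A', j < padicValInt p a)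

/-- the inequality between the functionals of the two parts -/
def SplitOK (k : ℕ) (B : ℝ → ℝ) (t₀ : ℝ) : Prop :=
  ∀ (p j : ℕ) (A A₀ A' : Finset ℤ), Mono A → Split p j A A₀ A' →
    ∀ t, 0 ≤ t → t ≤ t₀ → S k A' + t * S k A₀ ≤ S k A * B t

/-- the real inequality behind one step of the induction -/
def RealOK (n : ℕ) (b : ℝ) (B : ℝ → ℝ) (t₀ : ℝ) : Prop :=
  ∀ φ Q : ℝ, 0 < φ → 0 < Q → Q ≤ 1 → (∀ t, 0 ≤ t → t ≤ t₀ → √φ + t * √Q ≤ B t) →
    ∀ u, 0 ≤ u → u ≤ 1 →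
      φ * (1 - u) ^ ((n : ℝ) * b) ≤ (1 - (Q * u ^ b) ^ (1 / (1 + b))) ^ (1 + b)

/-- the parameters of the tangency argument (`Good` of `N811.SP.Real1` without `σ`) -/
structure Good' (n β K : ℝ) : Prop where
  hn : 2 ≤ n
  hβ : 0 < β
  hK : n ^ β = K
  hnp : 1 ≤ (n - 1) * β
  c2 : (1 + (1 - 1 / n) / ((1 - 1 / n) * β)) ^ (1 + β) ≤ K / ((1 - 1 / n) * β)

/-- the cube root of 50 -/
noncomputable def c3 : ℝ := (50:ℝ) ^ ((1:ℝ) / 3)

/-- the bound for the sixth moment -/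
noncomputable def B3 (t : ℝ) : ℝ := (1 + 3 * c3 * t ^ 2 + 241 / 10 * t ^ 4) ^ ((1:ℝ) / 6)

end Pool.Agent.N356.SP
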