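import Pool.Agent.N356.SP.Defs

set_option autoImplicit false

/-! Definitions for the class inequality in `L^8` (and higher): graded positive cones. -/

namespace Pool.Agent.N356.SP

open Finset

/-- a graded system of convex cones, closed under products -/
structure Cone (Γ R : Type*) [AddCommGroup Γ] [CommRing R] [Algebra ℝ R] where
  P : Γ → Set R
  zero : ∀ c, (0 : R) ∈ P c
  one : (1 : R) ∈ P 0
  add : ∀ c x y, x ∈ P c → y ∈ P c → x + y ∈ P c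
  mul : ∀ c d x y, x ∈ P c → y ∈ P d → x * y ∈ P (c + d)
  smul : ∀ c (a : ℝ) x, 0 ≤ a → x ∈ P c → a • x ∈ P c

/-- linear functionals which are nonnegative on the class 0 and vanish on the other classes -/
structure IsFun {Γ R : Type*} [AddCommGroup Γ] [CommRing R] [Algebra ℝ R] (K : Cone Γ R)
    (L : R →ₗ[ℝ] ℝ) : Prop where
  nn : ∀ x ∈ K.P 0, 0 ≤ L x
  z : ∀ c, c ≠ 0 → ∀ x ∈ K.P c, L x = 0

section Abs

variable {Γ R : Type*} [AddCommGroup Γ] [CommRing R] [Algebra ℝ R]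

/-- `f = ∑ f_c` -/
noncomputable def fA (C : Finset Γ) (φ : Γ → R) : R := ∑ c ∈ C, φ c

/-- `μ = ∑ f_c f_{-c}` -/
noncomputable def muA (C : Finset Γ) (φ : Γ → R) : R := ∑ c ∈ C, φ c * φ (-c)

open Classical in
/-- sums of two classes -/
noncomputable def DD (C : Finset Γ) : Finset Γ := (C ×ˢ C).image fun p => p.1 + p.2

open Classical in
/-- the class `d` of `f^2` -/
noncomputable def uA (C : Finset Γ) (φ : Γ → R) (d : Γ) : R :=
  ∑ s ∈ C, ∑ t ∈ C, if s + t = d then φ s * φ t else 0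

open Classical in
/-- the nonzero classes of `f^2` -/
noncomputable def UA (C : Finset Γ) (φ : Γ → R) : R := ∑ d ∈ (DD C).erase 0, uA C φ d

open Classical in
/-- the class 0 of the square of the preceding -/
noncomputable def vA (C : Finset Γ) (φ : Γ → R) : R :=
  ∑ d ∈ (DD C).erase 0, uA C φ d * uA C φ (-d)

open Classical in
/-- the weighted class `r` of `f^2` -/
noncomputable def VA (C : Finset Γ) (θ : Γ → Γ → ℝ) (φ : Γ → R) (r : Γ) : R :=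
  ∑ s ∈ C, ∑ t ∈ C, if s + t = r then θ s t • (φ s * φ t) else 0

/-- `w = ∑ V_r V_{-r}` -/
noncomputable def wA (C : Finset Γ) (θ : Γ → Γ → ℝ) (φ : Γ → R) : R :=
  ∑ r ∈ DD C, VA C θ φ r * VA C θ φ (-r)

end Abs

section Fun

/-- `μ(x) = ∑ |f_c(x)|^2` -/
noncomputable def muf {m : ℕ} (C : Finset (ZMod m)) (f : ℤ →₀ ℝ) (x : ℝ) : ℝ :=
  ∑ c ∈ C, ‖cl m f c x‖ ^ 2

open Classical in
/-- the weighted class `r` of `f^2` as a function -/
noncomputable def Vf {m : ℕ} (C : Finset (ZMod m)) (θ : ZMod m → ZMod m → ℝ) (f : ℤ →₀ ℝ)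
    (r : ZMod m) (x : ℝ) : ℂ :=
  ∑ s ∈ C, ∑ t ∈ C, if s + t = r then (θ s t : ℂ) * (cl m f s x * cl m f t x) else 0

/-- `w(x) = ∑ |V_r(x)|^2` -/
noncomputable def wf {m : ℕ} (C : Finset (ZMod m)) (θ : ZMod m → ZMod m → ℝ) (f : ℤ →₀ ℝ)
    (x : ℝ) : ℝ :=
  ∑ r ∈ DD C, ‖Vf C θ f r x‖ ^ 2

end Fun

/-- the fourth root of 2744/5 -/
noncomputable def c4 : ℝ := (2744 / 5 : ℝ) ^ ((1:ℝ) / 4)

/-- the bound for the eighth moment -/
noncomputable def B4 (t : ℝ) : ℝ :=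
  (1 + 4 * c4 * t ^ 2 + 97 * t ^ 4 + 50 * t ^ 6) ^ ((1:ℝ) / 8)

/-- the bound for the eighth moment in the parameter `Y` -/
noncomputable def N4 (Y : ℝ) : ℝ :=
  1 + 4 * (1 + Y / 2) ^ 2 * Y + 4141 / 1000 * Y ^ 2 * (1 + Y / 2) ^ 4 +
    441 / 1000 * Y ^ 3 * (1 + Y / 2) ^ 6

/-- its derivative -/
noncomputable def N4' (Y : ℝ) : ℝ :=
  4 * (1 + Y / 2) ^ 2 + 4 * (1 + Y / 2) * Y + 4141 / 500 * Y * (1 + Y / 2) ^ 4 +
    4141 / 500 * Y ^ 2 * (1 + Y / 2) ^ 3 + 1323 / 1000 * Y ^ 2 * (1 + Y / 2) ^ 6 +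
    1323 / 1000 * Y ^ 3 * (1 + Y / 2) ^ 5

end Pool.Agent.N356.SP
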