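import Pool.Agent.N356.SP.Defs4

set_option autoImplicit false

/-! Definitions for the class inequality in `L^{2k}` for every `k`. -/

namespace Pool.Agent.N356.SP

open Finset Pool.Agent.H384R3.SPk

/-- `C(2j, j) / 2^j` -/
noncomputable def lam (j : ℕ) : ℝ := ((2 * j).choose j : ℝ) / 2 ^ j

/-- `p_k(μ, t) = ∑_j C(k, 2j) λ_j t^j μ^(k - 2j)` -/
noncomputable def pK {R : Type*} [CommRing R] [Algebra ℝ R] (k : ℕ) (μ t : R) : R :=
  ∑ j ∈ range (k / 2 + 1), ((k.choose (2 * j) : ℝ) * lam j) • (t ^ j * μ ^ (k - 2 * j))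

/-- all elements of `C` have order greater than `2k` -/
def OrdC {Γ : Type*} [AddCommGroup Γ] (k : ℕ) (C : Finset Γ) : Prop :=
  ∀ s ∈ C, ∀ i : ℕ, 0 < i → i ≤ 2 * k → i • s ≠ 0

section Words

variable {Γ : Type*} [AddCommGroup Γ]

open Classical in
/-- number of antipodal pairs of positions of a word -/
noncomputable def wS {n : ℕ} (x : Fin n → Γ) : ℝ := ∑ i, ∑ j, if x i = -x j then 1 else 0

open Classical in
/-- number of pairs of disjoint antipodal pairs of positions -/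
noncomputable def wS4 {n : ℕ} (x : Fin n → Γ) : ℝ :=
  ∑ i, ∑ j, ∑ k, ∑ l,
    if (i ≠ j ∧ i ≠ k ∧ i ≠ l ∧ j ≠ k ∧ j ≠ l ∧ k ≠ l) ∧ x i = -x j ∧ x k = -x l then 1 else 0

open Classical in
/-- weighted number of quadruples of distinct positions with sum zero -/
noncomputable def wV4 {n : ℕ} (θ : Γ → Γ → ℝ) (x : Fin n → Γ) : ℝ :=
  ∑ i, ∑ j, ∑ k, ∑ l,
    if (i ≠ j ∧ i ≠ k ∧ i ≠ l ∧ j ≠ k ∧ j ≠ l ∧ k ≠ l) ∧ x i + x j + x k + x l = 0 then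
      θ (x i) (x j) * θ (x k) (x l) else 0

/-- the same quantities for multiplicities `m` -/
noncomputable def mS (C : Finset Γ) (m : Γ → ℝ) : ℝ := ∑ v ∈ C, m v * m (-v)

noncomputable def mS4 (C : Finset Γ) (m : Γ → ℝ) : ℝ :=
  mS C m ^ 2 - 2 * ∑ v ∈ C, m v * m (-v) * (m v + m (-v) - 1)

/-- `Π`: number of pairs which are neither equal nor antipodal -/
noncomputable def mP (C : Finset Γ) (m : Γ → ℝ) : ℝ :=
  (∑ v ∈ C, m v) ^ 2 - 1 / 2 * ∑ v ∈ C, (m v + m (-v)) ^ 2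

/-- `Δ` -/
noncomputable def mD (C : Finset Γ) (m : Γ → ℝ) : ℝ := 1 / 2 * ∑ v ∈ C, (m v - m (-v)) ^ 2

open Classical in
/-- number of quadruples with sum zero whose first two and last two entries are crossing -/
noncomputable def mQ (C : Finset Γ) (m : Γ → ℝ) : ℝ :=
  ∑ s ∈ C, ∑ t ∈ C, ∑ u ∈ C, ∑ v ∈ C,
    if s + t + u + v = 0 ∧ t ≠ s ∧ t ≠ -s ∧ v ≠ u ∧ v ≠ -u then m s * m t * m u * m v else 0

open Classical in
noncomputable def mV (C : Finset Γ) (θ : Γ → Γ → ℝ) (m : Γ → ℝ) : ℝ :=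
  ∑ s ∈ C, ∑ t ∈ C, ∑ u ∈ C, ∑ v ∈ C,
    if s + t + u + v = 0 then θ s t * θ u v * (m s * m t * m u * m v) else 0

open Classical in
/-- multiplicities of a word -/
noncomputable def mult {n : ℕ} (x : Fin n → Γ) (v : Γ) : ℝ :=
  ((univ.filter fun i => x i = v).card : ℝ)

end Words

/-- `c_k = 2 (2k - 1) / C(2k, k)^(1/k)` -/
noncomputable def cK (k : ℕ) : ℝ :=
  ((2 * (2 * (k : ℝ) - 1)) ^ k / ((2 * k).choose k : ℝ)) ^ ((1:ℝ) / k)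

/-- the polynomial bound for the `2k`-th moment, `κ = 1 / k`, `X = k c_k t^2` -/
noncomputable def Nb (κ X : ℝ) : ℝ :=
  1 + X +
    (9 / 100 + 1 / 6 * (1 - κ) ^ 2 * (2 - 7 * κ / 4) +
      1 / 120 * (1 - κ) ^ 2 * (1 - 7 * κ / 4) * (4 - 7 * κ / 2) * (2 - 7 * κ / 8)) * X ^ 2 +
    (1 / 90 * (1 - κ) ^ 2 * (1 - 2 * κ) ^ 2 * (2 - 7 * κ / 4) ^ 2 +
      1 / 120 * (1 - κ) ^ 2 * (1 - 7 * κ / 4) * (4 - 7 * κ / 2) * (2 - 7 * κ / 8) +
      127 / 20000 * (1 - κ) ^ 2 * (1 - 2 * κ) ^ 2) * X ^ 3 +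
    201 / 20000 * (1 - κ) ^ 2 * (1 - 2 * κ) ^ 2 * X ^ 4 +
    1 / 2000 * (1 - κ) ^ 2 * (1 - 2 * κ) ^ 2 * X ^ 5

/-- bound for the `j`-th term of the binomial expansion -/
noncomputable def TK (k j : ℕ) (X : ℝ) : ℝ :=
  ((2 * k).choose j : ℝ) * ((2 * k).choose 2 : ℝ) ^ (-(j:ℝ) / 2) *
    lam k ^ (((j:ℝ) - 2) / (2 * (k - 1))) * X ^ ((j:ℝ) / 2)

noncomputable def BK (k : ℕ) (t : ℝ) : ℝ := Nb (1 / k) (k * cK k * t ^ 2) ^ ((1:ℝ) / (2 * k))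

noncomputable def tK (k : ℕ) : ℝ := √(17 / (10 * k * cK k))

/-- sets of integers in one class of valuation and unit part for the primes up to `2k` -/
def MonoK (k : ℕ) (A : Finset ℤ) : Prop :=
  ∀ q : ℕ, q.Prime → q ≤ 2 * k → ∀ a ∈ A, ∀ b ∈ A,
    padicValInt q a ≡ padicValInt q b [MOD 2 * k] ∧
    a / (q : ℤ) ^ padicValInt q a ≡ b / (q : ℤ) ^ padicValInt q b [ZMOD (q : ℤ) ^ (2 * k)]

/-- the inequality between the functionals of the two parts -/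
def SplitK (k : ℕ) (B : ℝ → ℝ) (t₀ : ℝ) : Prop :=
  ∀ (p j : ℕ) (A A₀ A' : Finset ℤ), MonoK k A → Split p j A A₀ A' →
    ∀ t, 0 ≤ t → t ≤ t₀ → S k A' + t * S k A₀ ≤ S k A * B t

end Pool.Agent.N356.SP
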